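import Pool.Agent.H.MP_c8915d_al.Defs

namespace Pool.Agent.H.MP_c8915d_al

/-- quasi 3-permutability. -/
def S3 : Cond where
  n := 2
  m := 2
  ar := fun _ => 3
  eqs := [(⟨0, ![0, 1, 1]⟩, ⟨0, ![0, 0, 0]⟩), (⟨0, ![0, 0, 1]⟩, ⟨1, ![0, 1, 1]⟩),
    (⟨1, ![0, 0, 1]⟩, ⟨1, ![1, 1, 1]⟩)]

variable {𝔸 : Alg}

/-- ternary term operations, curried. -/
def T3 (𝔸 : Alg) (p : 𝔸.A → 𝔸.A → 𝔸.A → 𝔸.A) : Prop := IsTerm 𝔸 3 fun x => p (x 0) (x 1) (x 2)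

lemma IsTerm.subst {n m : ℕ} {t : (Fin n → 𝔸.A) → 𝔸.A} (h : IsTerm 𝔸 n t)
    (s : Fin n → (Fin m → 𝔸.A) → 𝔸.A) (hs : ∀ l, IsTerm 𝔸 m (s l)) :
    IsTerm 𝔸 m fun x => t fun l => s l x := by
  induction h with
  | proj l => exact hs l
  | comp i t _ ih => exact IsTerm.comp i (fun j x => t j fun l => s l x) ih

lemma T3.comp {p a b c : 𝔸.A → 𝔸.A → 𝔸.A → 𝔸.A} (hp : T3 𝔸 p) (ha : T3 𝔸 a) (hb : T3 𝔸 b)
    (hc : T3 𝔸 c) : T3 𝔸 fun x y z => p (a x y z) (b x y z) (c x y z) :=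
  IsTerm.subst hp ![fun x => a (x 0) (x 1) (x 2), fun x => b (x 0) (x 1) (x 2),
    fun x => c (x 0) (x 1) (x 2)] fun l => by fin_cases l <;> assumption

lemma T3.p0 : T3 𝔸 fun x _ _ => x := IsTerm.proj 0
lemma T3.p1 : T3 𝔸 fun _ y _ => y := IsTerm.proj 1
lemma T3.p2 : T3 𝔸 fun _ _ z => z := IsTerm.proj 2

lemma IsTerm.idem (hi : 𝔸.Idem) {n : ℕ} {t : (Fin n → 𝔸.A) → 𝔸.A} (h : IsTerm 𝔸 n t) (a : 𝔸.A) :
    t (fun _ => a) = a := by
  induction h with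
  | proj l => rfl
  | comp i t _ ih => simp only [ih]; exact hi i a

lemma T3.idem (hi : 𝔸.Idem) {p : 𝔸.A → 𝔸.A → 𝔸.A → 𝔸.A} (h : T3 𝔸 p) (a : 𝔸.A) : p a a a = a :=
  IsTerm.idem hi h a

lemma eta3 {α : Type} (x : Fin 3 → α) : ![x 0, x 1, x 2] = x := by
  funext l; fin_cases l <;> rfl

lemma comp3 {α : Type} (x : Fin 2 → α) (a b c : Fin 2) : x ∘ ![a, b, c] = ![x a, x b, x c] := by
  funext l; fin_cases l <;> rfl

lemma satOn_iff (F : Finset (Fin 2 → 𝔸.A)) : SatOn 𝔸 S3 F ↔ ∃ p q, T3 𝔸 p ∧ T3 𝔸 q ∧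
    ∀ x ∈ F, p (x 0) (x 1) (x 1) = p (x 0) (x 0) (x 0) ∧
      p (x 0) (x 0) (x 1) = q (x 0) (x 1) (x 1) ∧ q (x 0) (x 0) (x 1) = q (x 1) (x 1) (x 1) := by
  constructor
  · rintro ⟨d, hd, h⟩
    refine ⟨fun a b c => d (0 : Fin 2) ![a, b, c], fun a b c => d (1 : Fin 2) ![a, b, c], ?_, ?_,
      fun x hx => ⟨?_, ?_, ?_⟩⟩
    · simp only [T3, eta3]; exact hd (0 : Fin 2)
    · simp only [T3, eta3]; exact hd (1 : Fin 2)
    · simp only [← comp3]; exact h _ (List.mem_cons_self ..) x hx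
    · simp only [← comp3]; exact h _ (List.mem_cons_of_mem _ (List.mem_cons_self ..)) x hx
    · simp only [← comp3]
      exact h _ (List.mem_cons_of_mem _ (List.mem_cons_of_mem _ (List.mem_cons_self ..))) x hx
  · rintro ⟨p, q, hp, hq, h⟩
    refine ⟨fun (j : Fin 2) (x : Fin 3 → 𝔸.A) => if j = 0 then p (x 0) (x 1) (x 2)
      else q (x 0) (x 1) (x 2), fun (j : Fin 2) => ?_, fun e he x hx => ?_⟩
    · fin_cases j
      · exact hp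
      · exact hq
    · rcases List.mem_cons.1 he with rfl | he
      · exact (h x hx).1
      rcases List.mem_cons.1 he with rfl | he
      · exact (h x hx).2.1
      rcases List.mem_cons.1 he with rfl | he
      · exact (h x hx).2.2
      · exact absurd he List.not_mem_nil

def Good (𝔸 : Alg) (L1 L2 L3 : List (𝔸.A × 𝔸.A)) : Prop :=
  ∃ p q, T3 𝔸 p ∧ T3 𝔸 q ∧ (∀ x ∈ L1, p x.1 x.2 x.2 = x.1) ∧
    (∀ x ∈ L2, p x.1 x.1 x.2 = q x.1 x.2 x.2) ∧ ∀ x ∈ L3, q x.1 x.1 x.2 = x.2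

lemma good3 (hi : 𝔸.Idem) (h : ∀ a c g, Good 𝔸 [a] [c] [g]) (L3 : List (𝔸.A × 𝔸.A)) :
    ∀ a c, Good 𝔸 [a] [c] L3 := by
  induction L3 with
  | nil =>
    intro a c
    obtain ⟨p, q, hp, hq, h1, h2, -⟩ := h a c a
    exact ⟨p, q, hp, hq, h1, h2, by simp⟩
  | cons g L ih =>
    intro a c
    obtain ⟨p1, q1, hp1, hq1, h1, h2, h3⟩ := ih a c
    obtain ⟨p2, q2, hp2, hq2, k1, k2, k3⟩ := h a (p1 c.1 c.1 c.2, c.2) (q1 g.1 g.1 g.2, g.2)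
    simp only [List.mem_singleton, forall_eq] at h1 h2 k1 k2 k3
    refine ⟨_, _, hp2.comp hp1 (hp1.comp T3.p1 T3.p1 T3.p2) T3.p2,
      hq2.comp hq1 (hq1.comp T3.p1 T3.p1 T3.p2) T3.p2, ?_, ?_, ?_⟩
    · simp only [List.mem_singleton, forall_eq, h1, hp1.idem hi, k1]
    · simp only [List.mem_singleton, forall_eq, ← h2, hq1.idem hi, k2]
    · intro x hx
      rcases List.mem_cons.1 hx with rfl | hx
      · exact k3
      · simp only [h3 x hx, hq2.idem hi]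

lemma good1 (hi : 𝔸.Idem) (h : ∀ a c L3, Good 𝔸 [a] [c] L3) (L1 L3 : List (𝔸.A × 𝔸.A)) :
    ∀ c, Good 𝔸 L1 [c] L3 := by
  induction L1 with
  | nil =>
    intro c
    obtain ⟨p, q, hp, hq, -, h2, h3⟩ := h c c L3
    exact ⟨p, q, hp, hq, by simp, h2, h3⟩
  | cons a L ih =>
    intro c
    obtain ⟨p1, q1, hp1, hq1, h1, h2, h3⟩ := ih c
    obtain ⟨p2, q2, hp2, hq2, k1, k2, k3⟩ := h (a.1, p1 a.1 a.2 a.2) (c.1, p1 c.1 c.1 c.2) L3
    simp only [List.mem_singleton, forall_eq] at h2 k1 k2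
    refine ⟨_, _, hp2.comp T3.p0 (hp1.comp T3.p0 T3.p1 T3.p1) hp1,
      hq2.comp T3.p0 (hq1.comp T3.p0 T3.p1 T3.p1) hq1, ?_, ?_, ?_⟩
    · intro x hx
      rcases List.mem_cons.1 hx with rfl | hx
      · exact k1
      · simp only [h1 x hx, hp2.idem hi]
    · simp only [List.mem_singleton, forall_eq, ← h2, hp1.idem hi, k2]
    · intro x hx
      simp only [h3 x hx, hq1.idem hi, k3 x hx]

lemma good2 (hi : 𝔸.Idem) (h : ∀ L1 c L3, Good 𝔸 L1 [c] L3) (L1 L2 L3 : List (𝔸.A × 𝔸.A)) :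
    Good 𝔸 L1 L2 L3 := by
  induction L2 with
  | nil =>
    obtain ⟨a⟩ := 𝔸.ne
    obtain ⟨p, q, hp, hq, h1, -, h3⟩ := h L1 (a, a) L3
    exact ⟨p, q, hp, hq, h1, by simp, h3⟩
  | cons c L ih =>
    obtain ⟨p1, q1, hp1, hq1, h1, h2, h3⟩ := ih
    obtain ⟨p2, q2, hp2, hq2, k1, k2, k3⟩ := h L1 (p1 c.1 c.1 c.2, q1 c.1 c.2 c.2) L3
    simp only [List.mem_singleton, forall_eq] at k2
    refine ⟨_, _, hp2.comp hp1 (hp1.comp T3.p1 T3.p1 T3.p2) (hq1.comp T3.p1 T3.p2 T3.p2),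
      hq2.comp (hp1.comp T3.p0 T3.p0 T3.p1) (hq1.comp T3.p0 T3.p1 T3.p1) hq1, ?_, ?_, ?_⟩
    · intro x hx
      simp only [h1 x hx, hp1.idem hi, hq1.idem hi, k1 x hx]
    · intro x hx
      rcases List.mem_cons.1 hx with rfl | hx
      · exact k2
      · simp only [h2 x hx, hp2.idem hi, hq2.idem hi]
    · intro x hx
      simp only [h3 x hx, hp1.idem hi, hq1.idem hi, k3 x hx]

lemma exists_card {α : Type} {k : ℕ} (hk : (k : Cardinal) ≤ Cardinal.mk α) (s : Finset α)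
    (hs : s.card ≤ k) : ∃ t : Finset α, s ⊆ t ∧ t.card = k := by
  classical
  cases finite_or_infinite α with
  | inl h =>
    have := Fintype.ofFinite α
    rw [Cardinal.mk_fintype, Nat.cast_le] at hk
    obtain ⟨t, h1, -, h2⟩ := Finset.exists_subsuperset_card_eq (Finset.subset_univ s) hs hk
    exact ⟨t, h1, h2⟩
  | inr h => exact Infinite.exists_superset_card_eq s k hs

theorem lgp_idem : LGP Alg.Idem S3 := by
  classical
  refine ⟨3, by norm_num, fun 𝔸 hi hk h F => ?_⟩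
  have hk' : ((3 : ℕ) : Cardinal) ≤ Cardinal.mk (Fin 2 → 𝔸.A) := by
    rw [Cardinal.mk_arrow, Cardinal.lift_id, Cardinal.lift_id, Cardinal.mk_fin,
      Cardinal.power_natCast]
    exact hk
  have h0 : ∀ a c g, Good 𝔸 [a] [c] [g] := fun a c g => by
    obtain ⟨t, ht, hc⟩ := exists_card hk' {![a.1, a.2], ![c.1, c.2], ![g.1, g.2]}
      Finset.card_le_three
    obtain ⟨p, q, hp, hq, hh⟩ := (satOn_iff t).1 (h t hc)
    refine ⟨p, q, hp, hq, ?_, ?_, ?_⟩ <;> simp only [List.mem_singleton, forall_eq]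
    · exact (hh ![a.1, a.2] (ht (by simp))).1.trans (hp.idem hi _)
    · exact (hh ![c.1, c.2] (ht (by simp))).2.1
    · exact (hh ![g.1, g.2] (ht (by simp))).2.2.trans (hq.idem hi _)
  let L : List (𝔸.A × 𝔸.A) := F.toList.map fun x : Fin 2 → 𝔸.A => (x 0, x 1)
  obtain ⟨p, q, hp, hq, h1, h2, h3⟩ := good2 hi
    (fun L1 c L3 => good1 hi (fun a c L3 => good3 hi h0 L3 a c) L1 L3 c) L L L
  refine (satOn_iff F).2 ⟨p, q, hp, hq, fun x hx => ?_⟩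
  have hm : (x 0, x 1) ∈ L := List.mem_map.2 ⟨x, Finset.mem_toList.2 hx, rfl⟩
  exact ⟨(h1 _ hm).trans (hp.idem hi _).symm, h2 _ hm, (h3 _ hm).trans (hq.idem hi _).symm⟩

end Pool.Agent.H.MP_c8915d_al
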