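import Pool.Agent.H.MP_c8915d_al.A

namespace Pool.Agent.H.MP_c8915d_al

inductive T where
  | var : ℕ → T
  | node : T → Bool → T → T → T → T

def code : List (T × T) → T
  | [] => T.var 0
  | a :: l => T.node (T.var 0) true a.1 a.2 (code l)

lemma code_inj : ∀ {l l' : List (T × T)}, code l = code l' → l = l'
  | [], [], _ => rfl
  | [], _ :: _, h => by simp [code] at h
  | _ :: _, [], h => by simp [code] at h
  | a :: l, a' :: l', h => by
    simp only [code, T.node.injEq, true_and] at h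
    rw [code_inj h.2.2, show a = a' from Prod.ext h.1 h.2.1]

def hd : T → ℕ
  | T.var n => n
  | T.node _ _ x _ _ => hd x

open Classical in
noncomputable def P (F : List (T × T)) (x y z : T) : T :=
  if y = z ∧ (x, y) ∈ F then T.node (code F) true x x x else T.node (code F) true x y z

open Classical in
noncomputable def D (F : List (T × T)) (z : T) : T :=
  if (z, z) ∈ F then T.node (code F) true z z z else T.node (code F) false z z z

open Classical in
noncomputable def Q (F : List (T × T)) (x y z : T) : T :=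
  if y = z ∧ (x, y) ∈ F then P F x x y else
    if x = y ∧ (x, z) ∈ F then D F z else T.node (code F) false x y z

lemma P_eq (F : List (T × T)) (x y z : T) : ∃ u v, P F x y z = T.node (code F) true x u v := by
  unfold P
  split_ifs
  · exact ⟨_, _, rfl⟩
  · exact ⟨_, _, rfl⟩

lemma Q_eq (F : List (T × T)) (x y z : T) : ∃ b u v, Q F x y z = T.node (code F) b u v z ∧
    (u = x ∨ u = z) ∧ (b = true → ∃ w, (u, w) ∈ F) := by
  unfold Q
  split_ifs with h1 h2
  · obtain ⟨rfl, h⟩ := h1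
    unfold P
    split_ifs with h3
    · obtain ⟨rfl, -⟩ := h3
      exact ⟨_, _, _, rfl, Or.inl rfl, fun _ => ⟨_, h⟩⟩
    · exact ⟨_, _, _, rfl, Or.inl rfl, fun _ => ⟨_, h⟩⟩
  · unfold D
    split_ifs with h3
    · exact ⟨_, _, _, rfl, Or.inr rfl, fun _ => ⟨_, h3⟩⟩
    · exact ⟨_, _, _, rfl, Or.inr rfl, by simp⟩
  · exact ⟨_, _, _, rfl, Or.inl rfl, by simp⟩

lemma sat {F : List (T × T)} {x y : T} (h : (x, y) ∈ F) :
    P F x y y = P F x x x ∧ P F x x y = Q F x y y ∧ Q F x x y = Q F y y y := by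
  refine ⟨?_, ?_, ?_⟩
  · simp [P, h]
  · simp [Q, h]
  · by_cases e : x = y
    · rw [e]
    · by_cases h' : (y, y) ∈ F <;> simp [Q, e, h, h', D, P]

noncomputable abbrev AA (k : ℕ) : Alg where
  A := T
  ne := ⟨T.var 0⟩
  I := Bool × {F : List (T × T) // F.length ≤ k}
  ar := fun _ => 3
  op := fun i x => if i.1 = true then P i.2.1 (x 0) (x 1) (x 2) else Q i.2.1 (x 0) (x 1) (x 2)

lemma hd_term {k : ℕ} {t : (Fin 3 → (AA k).A) → (AA k).A} (h : IsTerm (AA k) 3 t) (n : ℕ) :
    hd (t ![T.var n, T.var n, T.var n]) = n := by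
  induction h with
  | proj l => fin_cases l <;> rfl
  | comp i t _ ih =>
    obtain ⟨_ | _, F⟩ := i
    · obtain ⟨b, u, v, e, h1, -⟩ := Q_eq F.1 (t 0 ![T.var n, T.var n, T.var n])
        (t 1 ![T.var n, T.var n, T.var n]) (t 2 ![T.var n, T.var n, T.var n])
      refine (congrArg hd e).trans ?_
      rcases h1 with rfl | rfl
      · exact ih 0
      · exact ih 2
    · obtain ⟨u, v, e⟩ := P_eq F.1 (t 0 ![T.var n, T.var n, T.var n])
        (t 1 ![T.var n, T.var n, T.var n]) (t 2 ![T.var n, T.var n, T.var n])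
      exact (congrArg hd e).trans (ih 0)

def Eqs (k : ℕ) (p q : (Fin 3 → T) → T) : Prop := ∀ m ≤ k, ∀ n ≤ k,
  p ![T.var m, T.var n, T.var n] = p ![T.var m, T.var m, T.var m] ∧
  p ![T.var m, T.var m, T.var n] = q ![T.var m, T.var n, T.var n] ∧
  q ![T.var m, T.var m, T.var n] = q ![T.var n, T.var n, T.var n]

lemma P_inj {F F' : List (T × T)} {x y z x' y' z' : T} (h : P F x y z = P F' x' y' z') :
    x = x' := by
  obtain ⟨u, v, e⟩ := P_eq F x y z
  obtain ⟨u', v', e'⟩ := P_eq F' x' y' z'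
  rw [e, e'] at h
  exact (T.node.inj h).2.2.1

lemma Q_inj {F F' : List (T × T)} {x y z x' y' z' : T} (h : Q F x y z = Q F' x' y' z') :
    z = z' := by
  obtain ⟨b, u, v, e, -⟩ := Q_eq F x y z
  obtain ⟨b', u', v', e', -⟩ := Q_eq F' x' y' z'
  rw [e, e'] at h
  exact (T.node.inj h).2.2.2.2

lemma mismatch {k : ℕ} {F F' : List (T × T)} (hF : F.length ≤ k) {x y z x' y' z' : ℕ → T}
    (hx : ∀ n, hd (x n) = n) (hz : ∀ n, hd (z n) = n)
    (h : ∀ n ≤ k, Q F (x n) (y n) (z n) = P F' (x' n) (y' n) (z' n)) : False := by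
  classical
  have : Finset.range (k + 1) ⊆ (F.map fun a => hd a.1).toFinset := fun n hn => by
    have h' := h n (Nat.lt_succ_iff.1 (Finset.mem_range.1 hn))
    obtain ⟨b, u, v, e, h1, h2⟩ := Q_eq F (x n) (y n) (z n)
    obtain ⟨u', v', e'⟩ := P_eq F' (x' n) (y' n) (z' n)
    rw [e, e'] at h'
    obtain ⟨w, hw⟩ := h2 (T.node.inj h').2.1
    refine List.mem_toFinset.2 (List.mem_map.2 ⟨_, hw, ?_⟩)
    rcases h1 with rfl | rfl
    · exact hx n
    · exact hz n
  have h1 := Finset.card_le_card this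
  have h2 := List.toFinset_card_le (F.map fun a => hd a.1)
  simp only [Finset.card_range, List.length_map] at h1 h2
  omega

lemma op_ne {k : ℕ} (i : (AA k).I) (x : Fin 3 → T) (n : ℕ) : (AA k).op i x ≠ T.var n := by
  obtain ⟨_ | _, F⟩ := i
  · obtain ⟨b, u, v, e, -⟩ := Q_eq F.1 (x 0) (x 1) (x 2)
    intro h
    exact T.noConfusion (e.symm.trans h)
  · obtain ⟨u, v, e⟩ := P_eq F.1 (x 0) (x 1) (x 2)
    intro h
    exact T.noConfusion (e.symm.trans h)

lemma no_eqs {k : ℕ} (hk : 1 ≤ k) {p : (Fin 3 → (AA k).A) → (AA k).A} (hp : IsTerm (AA k) 3 p) :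
    ∀ q, IsTerm (AA k) 3 q → ¬ Eqs k p q := by
  induction hp with
  | proj l =>
    intro q hq h
    cases hq with
    | proj l' =>
      have := h 0 (Nat.zero_le k) 1 hk
      fin_cases l <;> fin_cases l' <;> simp at this
    | comp i t _ =>
      have := (h 0 (Nat.zero_le k) 0 (Nat.zero_le k)).2.1
      fin_cases l <;> exact op_ne i _ 0 this.symm
  | comp i t ht ih =>
    intro q hq h
    cases hq with
    | proj l' =>
      have := (h 0 (Nat.zero_le k) 0 (Nat.zero_le k)).2.1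
      fin_cases l' <;> exact op_ne i _ 0 this
    | comp i' t' ht' =>
      obtain ⟨_ | _, F⟩ := i <;> obtain ⟨_ | _, F'⟩ := i'
      · exact ih 2 _ (ht' 2) fun m hm n hn =>
          ⟨Q_inj (h m hm n hn).1, Q_inj (h m hm n hn).2.1, Q_inj (h m hm n hn).2.2⟩
      · exact mismatch F.2 (hd_term (ht 0)) (hd_term (ht 2)) fun n hn => (h n hn n hn).2.1
      · exact mismatch F'.2 (hd_term (ht' 0)) (hd_term (ht' 2)) fun n hn => (h n hn n hn).2.1.symm
      · exact ih 0 _ (ht' 0) fun m hm n hn =>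
          ⟨P_inj (h m hm n hn).1, P_inj (h m hm n hn).2.1, P_inj (h m hm n hn).2.2⟩

theorem not_lgp : ¬ LGP (fun _ => True) S3 := by
  classical
  rintro ⟨k, hk, h⟩
  have hinf : Infinite T := Infinite.of_injective T.var fun _ _ => T.var.inj
  have h1 := h (AA k) trivial (by
      have : Cardinal.aleph0 ≤ Cardinal.mk T := Cardinal.aleph0_le_mk T
      show (k : Cardinal) ≤ Cardinal.mk T ^ 2
      rw [pow_two, Cardinal.mul_eq_self this]
      exact Cardinal.natCast_lt_aleph0.le.trans this)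
    (fun F hF => by
      let L : List (T × T) := F.toList.map fun x : Fin 2 → T => (x 0, x 1)
      have hL : L.length ≤ k := (List.length_map _).le.trans ((Finset.length_toList F).trans hF).le
      refine (satOn_iff (𝔸 := AA k) F).2 ⟨P L, Q L,
        IsTerm.comp (𝔸 := AA k) (true, ⟨L, hL⟩) (fun j x => x j) fun j => IsTerm.proj j,
        IsTerm.comp (𝔸 := AA k) (false, ⟨L, hL⟩) (fun j x => x j) fun j => IsTerm.proj j,
        fun x hx => sat (List.mem_map.2 ⟨x, Finset.mem_toList.2 hx, rfl⟩)⟩)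
    ((Finset.range (k + 1) ×ˢ Finset.range (k + 1)).image fun a => ![T.var a.1, T.var a.2])
  obtain ⟨p, q, hp, hq, hh⟩ := (satOn_iff (𝔸 := AA k) _).1 h1
  exact no_eqs hk hp _ hq fun m hm n hn => hh ![T.var m, T.var n] (Finset.mem_image.2
    ⟨(m, n), Finset.mem_product.2 ⟨Finset.mem_range.2 (Nat.lt_succ_iff.2 hm),
      Finset.mem_range.2 (Nat.lt_succ_iff.2 hn)⟩, rfl⟩)

end Pool.Agent.H.MP_c8915d_al
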