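import Mathlib

namespace Pool.Agent.H.MP_c8915d_al

/-- An algebra: nonempty universe and finitary basic operations. -/
structure Alg where
  A : Type
  ne : Nonempty A
  I : Type
  ar : I → ℕ
  op : ∀ i, (Fin (ar i) → A) → A

/-- Idempotent algebras. -/
def Alg.Idem (𝔸 : Alg) : Prop := ∀ i (x : 𝔸.A), 𝔸.op i (fun _ => x) = x

/-- `n`-ary term operations. -/
inductive IsTerm (𝔸 : Alg) (n : ℕ) : ((Fin n → 𝔸.A) → 𝔸.A) → Prop
  | proj (l : Fin n) : IsTerm 𝔸 n fun x => x l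
  | comp (i : 𝔸.I) (t : Fin (𝔸.ar i) → (Fin n → 𝔸.A) → 𝔸.A) :
      (∀ j, IsTerm 𝔸 n (t j)) → IsTerm 𝔸 n fun x => 𝔸.op i fun j => t j x

/-- A strong Maltsev condition of height 1: `n` variables, `m` function symbols, and a finite list
of equations between minors. -/
structure Cond where
  n : ℕ
  m : ℕ
  ar : Fin m → ℕ
  eqs : List ((Σ j : Fin m, Fin (ar j) → Fin n) × (Σ j : Fin m, Fin (ar j) → Fin n))

/-- The algebra satisfies the condition on the set `F` of tuples. -/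
def SatOn (𝔸 : Alg) (S : Cond) (F : Finset (Fin S.n → 𝔸.A)) : Prop :=
  ∃ d : ∀ j, (Fin (S.ar j) → 𝔸.A) → 𝔸.A, (∀ j, IsTerm 𝔸 (S.ar j) (d j)) ∧
    ∀ e ∈ S.eqs, ∀ x ∈ F, d e.1.1 (x ∘ e.1.2) = d e.2.1 (x ∘ e.2.2)

/-- The `k`-local-global property for the class `K`. -/
def LGPk (k : ℕ) (K : Alg → Prop) (S : Cond) : Prop :=
  ∀ 𝔸 : Alg, K 𝔸 → (k : Cardinal) ≤ Cardinal.mk 𝔸.A ^ S.n →
    (∀ F : Finset (Fin S.n → 𝔸.A), F.card = k → SatOn 𝔸 S F) →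
    ∀ F : Finset (Fin S.n → 𝔸.A), SatOn 𝔸 S F

/-- The local-global property for the class `K`. -/
def LGP (K : Alg → Prop) (S : Cond) : Prop := ∃ k, 1 ≤ k ∧ LGPk k K S

end Pool.Agent.H.MP_c8915d_al
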